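import Pool.Agent.Work.MP_2738db_nt_ZZ.Interface
import Pool.Agent.Work.MP_b0c12c_nt_helper41.Mert
import Mathlib.NumberTheory.Chebyshev

/-!
Block O1A (helper94): the larger sieve for the cofactor z of the difference of two p-th powers.
-/

set_option autoImplicit false

namespace Pool.Agent.Work.MP_2738db_nt_ZZ.helper94

open Finset
open Pool.Agent.Work.MP_b0c12c_nt_helper41 (FF mertens1)

/-- sum of log q / q over the primes between M and Q -/
theorem FF_sub_le (M Q : ℕ) :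
    FF Q - FF M ≤ ∑ q ∈ (Ioc M Q).filter Nat.Prime, Real.log q / q := by
  have hnn : ∀ q ∈ (Ioc M Q).filter Nat.Prime, 0 ≤ Real.log q / (q : ℝ) := by
    intro q hq
    rw [mem_filter] at hq
    have : (1 : ℝ) ≤ q := by exact_mod_cast hq.2.one_lt.le
    exact div_nonneg (Real.log_nonneg this) (by linarith)
  have h : FF Q ≤ ∑ q ∈ (Icc 1 M).filter Nat.Prime ∪ (Ioc M Q).filter Nat.Prime,
      Real.log q / (q : ℝ) := by
    unfold FF
    apply Finset.sum_le_sum_of_subset_of_nonneg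
    · intro q hq
      simp only [mem_union, mem_filter, mem_Icc, mem_Ioc] at hq ⊢
      rcases Nat.lt_or_ge M q with h1 | h1
      · right; exact ⟨⟨h1, hq.1.2⟩, hq.2⟩
      · left; exact ⟨⟨hq.1.1, h1⟩, hq.2⟩
    · intro q hq _
      simp only [mem_union, mem_filter, mem_Icc, mem_Ioc] at hq
      have hp : q.Prime := by rcases hq with h1 | h1 <;> exact h1.2
      have : (1 : ℝ) ≤ q := by exact_mod_cast hp.one_lt.le
      exact div_nonneg (Real.log_nonneg this) (by linarith)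
  rw [Finset.sum_union] at h
  · have : FF M = ∑ q ∈ (Icc 1 M).filter Nat.Prime, Real.log q / (q : ℝ) := rfl
    linarith
  · rw [Finset.disjoint_left]
    intro q h1 h2
    simp only [mem_filter, mem_Icc, mem_Ioc] at h1 h2
    omega

/-- the primes dividing `d` -/
theorem sum_dvd_le (S : Finset ℕ) (hS : ∀ q ∈ S, q.Prime) (M d : ℕ) (hd : 0 < d) (hM : 0 < M)
    (hMS : ∀ q ∈ S, M ≤ q) :
    ∑ q ∈ S.filter (fun q => q ∣ d), Real.log q / (q : ℝ) ≤ Real.log d / M := by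
  have hM' : (0 : ℝ) < M := by exact_mod_cast hM
  have h1 : ∑ q ∈ S.filter (fun q => q ∣ d), Real.log q / (q : ℝ) ≤
      ∑ q ∈ S.filter (fun q => q ∣ d), Real.log q / (M : ℝ) := by
    apply Finset.sum_le_sum
    intro q hq
    rw [mem_filter] at hq
    have h2 : (1 : ℝ) ≤ q := by exact_mod_cast (hS q hq.1).one_lt.le
    apply div_le_div_of_nonneg_left (Real.log_nonneg h2) hM'
    exact_mod_cast hMS q hq.1
  refine h1.trans ?_
  rw [← Finset.sum_div]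
  apply div_le_div_of_nonneg_right _ hM'.le
  rw [← Real.log_prod]
  · have h1 : (∏ q ∈ S.filter (fun q => q ∣ d), q) ∣ d := by
      apply Finset.prod_primes_dvd
      · intro q hq; rw [mem_filter] at hq; exact (hS q hq.1).prime
      · intro q hq; rw [mem_filter] at hq; exact hq.2
    have h2 := Nat.le_of_dvd hd h1
    apply Real.log_le_log
    · apply Finset.prod_pos
      intro q hq
      rw [mem_filter] at hq
      exact_mod_cast (hS q hq.1).pos
    · calc (∏ q ∈ S.filter (fun q => q ∣ d), (q:ℝ)) =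
          ((∏ q ∈ S.filter (fun q => q ∣ d), q : ℕ) : ℝ) := by push_cast; rfl
        _ ≤ d := by exact_mod_cast h2
  · intro q hq
    rw [mem_filter] at hq
    exact_mod_cast (hS q hq.1).pos.ne'

/-- Chebyshev's upper bound -/
theorem sum_log_le (S : Finset ℕ) (Q : ℕ) (hS : ∀ q ∈ S, q.Prime ∧ q ≤ Q) :
    ∑ q ∈ S, Real.log q ≤ 2 * (Q : ℝ) := by
  have h0 := Chebyshev.theta_le_log4_mul_x (x := (Q : ℝ)) (by positivity)
  have h4 : Real.log 4 ≤ 2 := by
    have : Real.log 4 = 2 * Real.log 2 := by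
      rw [show (4 : ℝ) = 2 ^ 2 by norm_num, Real.log_pow]; push_cast; ring
    rw [this]
    have := Real.log_two_lt_d9
    linarith
  have h1 : ∑ q ∈ S, Real.log q ≤ Chebyshev.theta (Q : ℝ) := by
    unfold Chebyshev.theta
    rw [Nat.floor_natCast]
    apply Finset.sum_le_sum_of_subset_of_nonneg
    · intro q hq
      rw [mem_filter, mem_Ioc]
      exact ⟨⟨(hS q hq).1.pos, (hS q hq).2⟩, (hS q hq).1⟩
    · intro q hq _
      rw [mem_filter] at hq
      exact Real.log_nonneg (by exact_mod_cast hq.2.one_lt.le)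
  have h2 : Real.log 4 * (Q : ℝ) ≤ 2 * (Q : ℝ) :=
    mul_le_mul_of_nonneg_right h4 (by positivity)
  linarith

/-- the residue classes -/
noncomputable def RR (p k D a q : ℕ) : Finset ℕ := by
  classical
  exact (range q).filter (fun r => ∃ Y : ZMod q, (Y + (D : ZMod q)) ^ p - Y ^ p =
    (a : ZMod q) * (D : ZMod q) * (r : ZMod q) ^ k)

theorem mem_RR (p k D a q r : ℕ) : r ∈ RR p k D a q ↔ r < q ∧
    ∃ Y : ZMod q, (Y + (D : ZMod q)) ^ p - Y ^ p =
      (a : ZMod q) * (D : ZMod q) * (r : ZMod q) ^ k := by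
  classical
  unfold RR
  rw [mem_filter, mem_range]

theorem card_RR_le (p k D a q : ℕ) [Fact q.Prime] :
    (RR p k D a q).card ≤ Nat.card {z : ZMod q // ∃ Y : ZMod q, (Y + ((D : ℤ) : ZMod q)) ^ p -
      Y ^ p = (a : ZMod q) * ((D : ℤ) : ZMod q) * z ^ k} := by
  classical
  have hf : ∀ r : (RR p k D a q : Finset ℕ), ∃ Y : ZMod q, (Y + ((D : ℤ) : ZMod q)) ^ p -
      Y ^ p = (a : ZMod q) * ((D : ℤ) : ZMod q) * ((r : ℕ) : ZMod q) ^ k := by
    intro r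
    have := ((mem_RR p k D a q r).1 r.2).2
    simpa using this
  have h := Nat.card_le_card_of_injective
    (fun r : (RR p k D a q : Finset ℕ) => (⟨((r : ℕ) : ZMod q), hf r⟩ :
      {z : ZMod q // ∃ Y : ZMod q, (Y + ((D : ℤ) : ZMod q)) ^ p -
      Y ^ p = (a : ZMod q) * ((D : ℤ) : ZMod q) * z ^ k})) ?_
  · simpa using h
  · intro r s hrs
    have h1 : ((r : ℕ) : ZMod q) = ((s : ℕ) : ZMod q) := by
      simpa using congrArg Subtype.val hrs
    have hr := ((mem_RR p k D a q r).1 r.2).1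
    have hs := ((mem_RR p k D a q s).1 s.2).1
    rw [ZMod.natCast_eq_natCast_iff, Nat.ModEq, Nat.mod_eq_of_lt hr, Nat.mod_eq_of_lt hs] at h1
    exact Subtype.ext h1

theorem mem_RR_of (p k D a q z : ℕ) (hq : 0 < q) (Y : ℤ)
    (h : (Y + (D : ℤ)) ^ p - Y ^ p = (a : ℤ) * (D : ℤ) * (z : ℤ) ^ k) :
    z % q ∈ RR p k D a q := by
  rw [mem_RR]
  refine ⟨Nat.mod_lt _ hq, (Y : ZMod q), ?_⟩
  have h1 := congrArg (Int.cast : ℤ → ZMod q) h
  push_cast at h1
  rw [ZMod.natCast_mod]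
  exact h1


/-- the bound for the residue classes modulo one prime -/
theorem card_le_q (Cn : ℝ) (hCn1 : 1 ≤ Cn) (hNu : ∀ (q p k a : ℕ) (D : ℤ) [Fact q.Prime],
    p.Prime → 3 ≤ p → 1 ≤ k → ¬ q ∣ 2 * p * a → ¬ (q : ℤ) ∣ D →
    (Nat.card {z : ZMod q // ∃ Y : ZMod q, (Y + (D : ZMod q)) ^ p - Y ^ p =
      (a : ZMod q) * (D : ZMod q) * z ^ k} : ℝ) ≤
      (q : ℝ) / 2 + Cn * ((p : ℝ) * k) ^ Cn * Real.sqrt q)
    (p k d D a q : ℕ) (hp : p.Prime) (hp3 : 3 ≤ p) (hk : 1 ≤ k)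
    (hDd : ∀ r : ℕ, r.Prime → r ∣ D → r ∣ d) (ha : a = 1 ∨ a = p) (hq : q.Prime)
    (hqM : 40000 * (Cn * ((p : ℝ) * k) ^ Cn) ^ 2 ≤ (q : ℝ)) (hqd : ¬ q ∣ d) :
    ((RR p k D a q).card : ℝ) ≤ 0.505 * (q : ℝ) := by
  have : Fact q.Prime := ⟨hq⟩
  have hpR : (3 : ℝ) ≤ p := by exact_mod_cast hp3
  have hkR : (1 : ℝ) ≤ k := by exact_mod_cast hk
  have hpP : (p : ℝ) ≤ (p : ℝ) * k := by nlinarith
  have hP1 : 1 ≤ (p : ℝ) * k := by linarith
  have hPC : (p : ℝ) * k ≤ ((p : ℝ) * k) ^ Cn := by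
    calc (p : ℝ) * k = ((p : ℝ) * k) ^ (1 : ℝ) := (Real.rpow_one _).symm
      _ ≤ ((p : ℝ) * k) ^ Cn := Real.rpow_le_rpow_of_exponent_le hP1 hCn1
  generalize hB : Cn * ((p : ℝ) * k) ^ Cn = B at *
  have hPB : (p : ℝ) * k ≤ B := by rw [← hB]; nlinarith
  have hB3 : 3 ≤ B := by linarith
  have hq0 : (0 : ℝ) < q := by exact_mod_cast hq.pos
  have hqB : 200 * B ≤ Real.sqrt q := by
    apply Real.le_sqrt_of_sq_le
    have : (200 * B) ^ 2 = 40000 * B ^ 2 := by ring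
    linarith
  have hpq : p < q := by
    have : (p : ℝ) < q := by
      have h1 : (p : ℝ) ≤ B := hpP.trans hPB
      nlinarith
    exact_mod_cast this
  have hq3 : 3 < q := by omega
  have hq2a : ¬ q ∣ 2 * p * a := by
    intro h
    rcases (Nat.Prime.dvd_mul hq).1 h with h | h
    · rcases (Nat.Prime.dvd_mul hq).1 h with h | h
      · have := Nat.le_of_dvd (by norm_num) h
        omega
      · have := Nat.le_of_dvd hp.pos h
        omega
    · rcases ha with ha | ha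
      · rw [ha] at h
        have := Nat.le_of_dvd (by norm_num) h
        omega
      · rw [ha] at h
        have := Nat.le_of_dvd hp.pos h
        omega
  have hqD : ¬ (q : ℤ) ∣ (D : ℤ) := by
    intro h
    have h' : q ∣ D := by exact_mod_cast h
    exact hqd (hDd q hq h')
  have h1 := hNu q p k a (D : ℤ) hp hp3 hk hq2a hqD
  rw [hB] at h1
  have h2 : ((RR p k D a q).card : ℝ) ≤ (Nat.card {z : ZMod q // ∃ Y : ZMod q,
      (Y + ((D : ℤ) : ZMod q)) ^ p - Y ^ p =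
        (a : ZMod q) * ((D : ℤ) : ZMod q) * z ^ k} : ℝ) := by
    exact_mod_cast card_RR_le p k D a q
  have h3 : Real.sqrt q * Real.sqrt q = q := Real.mul_self_sqrt hq0.le
  have h4 : B * Real.sqrt q ≤ q / 200 := by
    nlinarith [Real.sqrt_nonneg (q : ℝ)]
  have h6 : (0.505 : ℝ) * q = q / 2 + q / 200 := by ring
  rw [h6]
  linarith

/-- the case of small `Z` -/
theorem small_case (Cn Cm P B K L : ℝ) (hCn : 1 ≤ Cn) (hP : 1 ≤ P) (hB : B = Cn * P ^ Cn)
    (hK : K = Real.exp (2 + 8 * (1 + Cm)) * (200 * Cn) ^ 8)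
    (hL : L ≤ 2 * (4 * (1 + Real.log (200 * B) + Cm) + 1)) :
    Real.exp L ≤ K * P ^ (8 * Cn) := by
  have hPC : 0 < P ^ Cn := Real.rpow_pos_of_pos (by linarith) _
  have h200B : (0 : ℝ) < 200 * B := by rw [hB]; positivity
  have h2 : 2 * (4 * (1 + Real.log (200 * B) + Cm) + 1) =
      (2 + 8 * (1 + Cm)) + 8 * Real.log (200 * B) := by ring
  have h3 : Real.exp (8 * Real.log (200 * B)) = (200 * B) ^ 8 := by
    rw [mul_comm, Real.exp_mul, Real.exp_log h200B]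
    norm_cast
  have h4 : (200 * B) ^ 8 = (200 * Cn) ^ 8 * P ^ (8 * Cn) := by
    rw [hB, show 200 * (Cn * P ^ Cn) = (200 * Cn) * P ^ Cn by ring, mul_pow]
    congr 1
    rw [mul_comm 8 Cn, Real.rpow_mul (by linarith)]
    norm_cast
  calc Real.exp L ≤ Real.exp (2 * (4 * (1 + Real.log (200 * B) + Cm) + 1)) :=
        Real.exp_le_exp.2 hL
    _ = K * P ^ (8 * Cn) := by
        rw [h2, Real.exp_add, h3, h4, hK]; ring

/-- lower bound for the sum over `S` -/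
theorem sum_lower (Cm : ℝ) (hM : ∀ n : ℕ, 1 ≤ n → |FF n - Real.log n| ≤ Cm)
    (B L : ℝ) (hB3 : 3 ≤ B) (hL0 : 0 ≤ L) (d M Q : ℕ) (hd : 1 ≤ d)
    (hM1 : 40000 * B ^ 2 ≤ (M : ℝ)) (hM2 : (M : ℝ) ≤ 2 * (200 * B) ^ 2) (hQ1 : 1 ≤ Q)
    (hlogQ : 4 / 5 * L - 1 ≤ Real.log Q) (hlogd : Real.log d ≤ 2 * L)
    (hcase : 2 * (4 * (1 + Real.log (200 * B) + Cm) + 1) ≤ L) :
    1 ≤ ∑ q ∈ ((Ioc M Q).filter Nat.Prime).filter (fun q => ¬ q ∣ d),
      Real.log q / (0.505 * (q : ℝ)) - L := by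
  have hCm : 0 ≤ Cm := (abs_nonneg _).trans (hM 1 le_rfl)
  have hlB : 0 ≤ Real.log (200 * B) := Real.log_nonneg (by linarith)
  have hB2 : 9 ≤ B ^ 2 := by nlinarith
  have hM40 : (40000 : ℝ) ≤ M := by linarith
  have hMpos : 0 < M := by
    have : (0 : ℝ) < M := by linarith
    exact_mod_cast this
  have hlogM : Real.log M ≤ 1 + 2 * Real.log (200 * B) := by
    have h2 := Real.log_two_lt_d9
    calc Real.log M ≤ Real.log (2 * (200 * B) ^ 2) :=
          Real.log_le_log (by linarith) hM2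
      _ = Real.log 2 + 2 * Real.log (200 * B) := by
          rw [Real.log_mul (by norm_num) (by positivity), Real.log_pow]; push_cast; ring
      _ ≤ 1 + 2 * Real.log (200 * B) := by linarith
  have hTp : ∀ q ∈ (Ioc M Q).filter Nat.Prime, q.Prime := fun q hq => (mem_filter.1 hq).2
  have hTM : ∀ q ∈ (Ioc M Q).filter Nat.Prime, M < q ∧ q ≤ Q :=
    fun q hq => mem_Ioc.1 (mem_filter.1 hq).1
  have hsplit := Finset.sum_filter_add_sum_filter_not ((Ioc M Q).filter Nat.Prime)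
    (fun q => q ∣ d) (fun q => Real.log q / (q : ℝ))
  have hdvd := sum_dvd_le ((Ioc M Q).filter Nat.Prime) hTp M d hd hMpos
    (fun q hq => (hTM q hq).1.le)
  have hFF := FF_sub_le M Q
  have hMM := abs_le.1 (hM M hMpos)
  have hMQ := abs_le.1 (hM Q hQ1)
  have hlogdM : Real.log d / M ≤ L / 20000 := by
    rw [div_le_iff₀ (by linarith)]
    have : L / 20000 * 40000 ≤ L / 20000 * M :=
      mul_le_mul_of_nonneg_left hM40 (by positivity)
    linarith
  have hsum : ∑ q ∈ ((Ioc M Q).filter Nat.Prime).filter (fun q => ¬ q ∣ d),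
      Real.log q / (0.505 * (q : ℝ)) = (1 / 0.505) *
      ∑ q ∈ ((Ioc M Q).filter Nat.Prime).filter (fun q => ¬ q ∣ d), Real.log q / (q : ℝ) := by
    rw [Finset.mul_sum]
    apply Finset.sum_congr rfl
    intro q hq
    have : (q : ℝ) ≠ 0 := by exact_mod_cast (hTp q (mem_filter.1 hq).1).pos.ne'
    field_simp
  have hW0 : 0 ≤ ∑ q ∈ ((Ioc M Q).filter Nat.Prime).filter (fun q => ¬ q ∣ d),
      Real.log q / (q : ℝ) := by
    apply Finset.sum_nonneg
    intro q hq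
    have : (1 : ℝ) ≤ q := by exact_mod_cast (hTp q (mem_filter.1 hq).1).one_lt.le
    exact div_nonneg (Real.log_nonneg this) (by linarith)
  rw [hsum]
  generalize ∑ q ∈ ((Ioc M Q).filter Nat.Prime).filter (fun q => ¬ q ∣ d),
      Real.log q / (q : ℝ) = W at *
  have hW1 : 4 / 5 * L - 1 - Cm - (1 + 2 * Real.log (200 * B) + Cm) - L / 20000 ≤ W := by
    linarith [hMM.2, hMQ.1]
  have hc : (1.98 : ℝ) ≤ 1 / 0.505 := by norm_num
  have h3 : 1.98 * W ≤ 1 / 0.505 * W := mul_le_mul_of_nonneg_right hc hW0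
  linarith

theorem o1a : Stmt_Lsv → Stmt_Nu → Stmt_O1a := by
  classical
  intro hL hN
  obtain ⟨Cn, hCn1, hNu⟩ := hN
  obtain ⟨Cm, hCm0, hM⟩ := mertens1
  obtain ⟨K, hK⟩ : ∃ K : ℝ, K = Real.exp (2 + 8 * (1 + Cm)) * (200 * Cn) ^ 8 := ⟨_, rfl⟩
  have hK0 : 0 ≤ K := by rw [hK]; positivity
  obtain ⟨C, hC2, hCK, hC8⟩ : ∃ C : ℝ, 2 ≤ C ∧ K ≤ C ∧ 8 * Cn ≤ C :=
    ⟨max 2 (max K (8 * Cn)), le_max_left _ _, (le_max_left _ _).trans (le_max_right _ _),
      (le_max_right _ _).trans (le_max_right _ _)⟩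
  refine ⟨C, by linarith, ?_⟩
  intro p k d D a Z hp hp3 hk hd hZ hdZ hD hDd ha
  have hpR : (3 : ℝ) ≤ p := by exact_mod_cast hp3
  have hkR : (1 : ℝ) ≤ k := by exact_mod_cast hk
  have hZR : (1 : ℝ) ≤ Z := by exact_mod_cast hZ
  obtain ⟨P, hP⟩ : ∃ P : ℝ, P = (p : ℝ) * k := ⟨_, rfl⟩
  have hpP : (p : ℝ) ≤ P := by rw [hP]; nlinarith
  have hP3 : 3 ≤ P := hpR.trans hpP
  have hP1 : 1 ≤ P := by linarith
  have hPC : P ≤ P ^ Cn := by
    calc P = P ^ (1 : ℝ) := (Real.rpow_one P).symm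
      _ ≤ P ^ Cn := Real.rpow_le_rpow_of_exponent_le hP1 hCn1
  obtain ⟨B, hB⟩ : ∃ B : ℝ, B = Cn * P ^ Cn := ⟨_, rfl⟩
  have hB3 : 3 ≤ B := by rw [hB]; nlinarith
  have hPCC : 1 ≤ P ^ C := Real.one_le_rpow hP1 (by linarith)
  have hZ45 : (1 : ℝ) ≤ (Z : ℝ) ^ (4 / 5 : ℝ) := Real.one_le_rpow hZR (by norm_num)
  obtain ⟨A, hA⟩ : ∃ A : Finset ℕ, A = (Icc 1 Z).filter (fun z : ℕ => ∃ Y : ℤ,
      (Y + (D : ℤ)) ^ p - Y ^ p = (a : ℤ) * (D : ℤ) * (z : ℤ) ^ k) := ⟨_, rfl⟩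
  have hset : {z : ℕ | 1 ≤ z ∧ z ≤ Z ∧ ∃ Y : ℤ, (Y + (D : ℤ)) ^ p - Y ^ p =
      (a : ℤ) * (D : ℤ) * (z : ℤ) ^ k} = (A : Set ℕ) := by
    ext z
    rw [hA]
    simp only [Set.mem_ofPred_eq, coe_filter, mem_Icc]
    tauto
  rw [hset, Set.ncard_coe_finset, ← hP]
  have hAZ : (A.card : ℝ) ≤ Z := by
    have : A.card ≤ Z := by
      rw [hA]
      refine (card_filter_le _ _).trans ?_
      simp
    exact_mod_cast this
  have hL0 : 0 ≤ Real.log Z := Real.log_nonneg hZR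
  have hlB : 0 ≤ Real.log (200 * B) := Real.log_nonneg (by linarith)
  rcases lt_or_ge (Real.log Z) (2 * (4 * (1 + Real.log (200 * B) + Cm) + 1)) with hcase | hcase
  · -- small `Z`: trivial bound
    have h1 := small_case Cn Cm P B K (Real.log Z) hCn1 hP1 hB hK hcase.le
    rw [Real.exp_log (by linarith)] at h1
    have h5 : P ^ (8 * Cn) ≤ P ^ C := Real.rpow_le_rpow_of_exponent_le hP1 hC8
    have h6 : 0 ≤ P ^ (8 * Cn) := Real.rpow_nonneg (by linarith) _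
    have h7 : K * P ^ (8 * Cn) ≤ C * P ^ C :=
      mul_le_mul hCK h5 h6 (by linarith)
    calc (A.card : ℝ) ≤ Z := hAZ
      _ ≤ C * P ^ C * 1 := by linarith
      _ ≤ C * P ^ C * (Z : ℝ) ^ (4 / 5 : ℝ) := by
          apply mul_le_mul_of_nonneg_left hZ45
          have : 0 ≤ C := by linarith
          positivity
  -- main case
  obtain ⟨M, hMdef⟩ : ∃ M : ℕ, M = ⌈40000 * B ^ 2⌉₊ := ⟨_, rfl⟩
  obtain ⟨Q, hQdef⟩ : ∃ Q : ℕ, Q = ⌊(Z : ℝ) ^ (4 / 5 : ℝ)⌋₊ := ⟨_, rfl⟩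
  have hM1 : 40000 * B ^ 2 ≤ (M : ℝ) := by rw [hMdef]; exact Nat.le_ceil _
  have hM2 : (M : ℝ) ≤ 2 * (200 * B) ^ 2 := by
    have := (Nat.ceil_lt_add_one (by positivity : 0 ≤ 40000 * B ^ 2)).le
    rw [← hMdef] at this
    nlinarith
  have hQ1 : 1 ≤ Q := by
    rw [hQdef]
    exact Nat.le_floor (by simpa using hZ45)
  have hQle : (Q : ℝ) ≤ (Z : ℝ) ^ (4 / 5 : ℝ) := by
    rw [hQdef]; exact Nat.floor_le (by positivity)
  have hlogQ : 4 / 5 * Real.log Z - 1 ≤ Real.log Q := by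
    have h2 := Real.log_two_lt_d9
    have h3 : (Z : ℝ) ^ (4 / 5 : ℝ) / 2 ≤ Q := by
      have h4 := Nat.lt_floor_add_one ((Z : ℝ) ^ (4 / 5 : ℝ))
      have h5 : (1 : ℝ) ≤ Q := by exact_mod_cast hQ1
      rw [← hQdef] at h4
      linarith
    have h4 : Real.log ((Z : ℝ) ^ (4 / 5 : ℝ) / 2) ≤ Real.log Q :=
      Real.log_le_log (by positivity) h3
    rw [Real.log_div (by positivity) (by norm_num), Real.log_rpow (by linarith)] at h4
    linarith
  have hlogd : Real.log d ≤ 2 * Real.log Z := by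
    have hd0 : (0 : ℝ) < d := by exact_mod_cast hd
    have : (d : ℝ) ≤ (Z : ℝ) ^ 2 := by exact_mod_cast hdZ
    calc Real.log d ≤ Real.log ((Z : ℝ) ^ 2) := Real.log_le_log hd0 this
      _ = 2 * Real.log Z := by rw [Real.log_pow]; push_cast; ring
  have hbr := sum_lower Cm hM B (Real.log Z) hB3 hL0 d M Q hd hM1 hM2 hQ1 hlogQ hlogd hcase
  have hSp : ∀ q ∈ ((Ioc M Q).filter Nat.Prime).filter (fun q => ¬ q ∣ d),
      q.Prime ∧ M < q ∧ q ≤ Q ∧ ¬ q ∣ d := by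
    intro q hq
    rw [mem_filter, mem_filter, mem_Ioc] at hq
    exact ⟨hq.1.2, hq.1.1.1, hq.1.1.2, hq.2⟩
  generalize ((Ioc M Q).filter Nat.Prime).filter (fun q => ¬ q ∣ d) = S at *
  -- the larger sieve
  have key := hL A Z S (fun q => 0.505 * (q : ℝ)) (fun q => RR p k D a q) hZ
    (by
      intro z hz
      rw [hA, mem_filter, mem_Icc] at hz
      exact hz.1.2)
    (fun q hq => (hSp q hq).1)
    (by
      intro q hq
      obtain ⟨hqp, hqM, _, hqd⟩ := hSp q hq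
      have hqR : (M : ℝ) < q := by exact_mod_cast hqM
      have hq0 : (0 : ℝ) < q := by exact_mod_cast hqp.pos
      refine ⟨by positivity, ?_⟩
      apply card_le_q Cn hCn1 hNu p k d D a q hp hp3 hk hDd ha hqp _ hqd
      rw [← hP, ← hB]
      linarith)
    (by
      intro q hq z hz
      rw [hA, mem_filter] at hz
      obtain ⟨_, Y, hY⟩ := hz
      exact mem_RR_of p k D a q z (hSp q hq).1.pos Y hY)
  have hlogs := sum_log_le S Q (fun q hq => ⟨(hSp q hq).1, (hSp q hq).2.2.1⟩)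
  have hA1 : (A.card : ℝ) ≤ 2 * (Z : ℝ) ^ (4 / 5 : ℝ) := by
    have h0 : (0 : ℝ) ≤ (A.card : ℝ) := by positivity
    calc (A.card : ℝ) = (A.card : ℝ) * 1 := (mul_one _).symm
      _ ≤ (A.card : ℝ) * (∑ q ∈ S, Real.log q / (0.505 * (q : ℝ)) - Real.log Z) :=
          mul_le_mul_of_nonneg_left hbr h0
      _ ≤ ∑ q ∈ S, Real.log q := key
      _ ≤ 2 * (Q : ℝ) := hlogs
      _ ≤ 2 * (Z : ℝ) ^ (4 / 5 : ℝ) := by linarith
  refine hA1.trans ?_
  apply mul_le_mul_of_nonneg_right _ (by positivity)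
  nlinarith

end Pool.Agent.Work.MP_2738db_nt_ZZ.helper94
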